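import Pool.Agent.Helper18.SC.StD
import Pool.Agent.Helper7.SC.DP.Frames

set_option autoImplicit false

/-!
Pieces (M2) and (UN) of the sparse few digits theorem.
-/

namespace Pool.Agent.Helper18.SC.DP

open Finset Pool.Agent.Helper7.SC Pool.Agent.Helper7.SC.DP

lemma R_nonneg {b q r m H : ℕ} {Δ : ℝ} (hH : 1 ≤ H) (h0 : 0 < Δ) (h1 : Δ ≤ 1 / 2) (d : ℤ) :
    0 ≤ R b q r m H Δ d := by
  unfold R
  refine prod_nonneg fun B _ => ?_
  have h2 := abs_ka hH ((d : ℝ) / (b : ℝ) ^ (r + (B + 1) * q))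
  have h3 := (abs_le.1 h2).1
  nlinarith

theorem stM2 : StM2 := by
  intro b q r m K H p Δ hb hH hΔ hΔ' hp0 hp1 S D f hf
  set T : ℕ × ℕ → ℕ × ℕ → ℝ := fun x y =>
    law b q r m K p ((y.1 : ZMod (b ^ K)) + y.2 - x.1 - x.2) * R b q r m H Δ ((x.1 : ℤ) - y.1)
    with hT
  have hT0 : ∀ x y, 0 ≤ T x y := fun x y =>
    mul_nonneg (law_nonneg hp0 hp1 _) (R_nonneg hH hΔ hΔ' _)
  have hX : X b q r m K H p Δ S = ∑ x ∈ S ×ˢ S, ∑ y ∈ S ×ˢ S, T x y := by
    unfold X
    rw [sum_product]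
    refine sum_congr rfl fun a _ => sum_congr rfl fun a' _ => ?_
    rw [sum_product]
  set g : ℕ → ℕ × ℕ := fun n => (f n, n - f n) with hg
  have hginj : Set.InjOn g D := by
    intro n hn n' hn' h
    have h1 := congrArg Prod.fst h
    have h2 := congrArg Prod.snd h
    have h3 := (hf n hn).1
    have h4 := (hf n' hn').1
    simp only [hg] at h1 h2
    omega
  have hsub : D.image g ⊆ S ×ˢ S := by
    intro x hx
    obtain ⟨n, hn, rfl⟩ := mem_image.1 hx
    exact mem_product.2 ⟨(hf n hn).2.1, (hf n hn).2.2⟩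
  have hlow : ∑ n ∈ D, ∑ n' ∈ D, T (g n) (g n') ≤ X b q r m K H p Δ S := by
    rw [hX]
    calc ∑ n ∈ D, ∑ n' ∈ D, T (g n) (g n') = ∑ x ∈ D.image g, ∑ y ∈ D.image g, T x y := by
          rw [sum_image hginj]
          exact sum_congr rfl fun n _ => (sum_image hginj).symm
      _ ≤ ∑ x ∈ D.image g, ∑ y ∈ S ×ˢ S, T x y := sum_le_sum fun x _ =>
          sum_le_sum_of_subset_of_nonneg hsub fun y _ _ => hT0 x y
      _ ≤ _ := sum_le_sum_of_subset_of_nonneg hsub fun x _ _ => sum_nonneg fun y _ => hT0 x y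
  refine le_trans (le_of_eq ?_) hlow
  refine sum_congr rfl fun n hn => sum_congr rfl fun n' hn' => ?_
  have h1 : ((g n').1 : ZMod (b ^ K)) + (g n').2 - (g n).1 - (g n).2 =
      (n' : ZMod (b ^ K)) - n := by
    simp only [hg]
    rw [Nat.cast_sub (hf n hn).1, Nat.cast_sub (hf n' hn').1]
    ring
  simp only [hT]
  rw [h1]

lemma sum_range_mul' {M : Type} [AddCommMonoid M] (Q N : ℕ) (F : ℕ → M) :
    ∑ n ∈ range (Q * N), F n = ∑ n ∈ range N, ∑ t ∈ range Q, F (Q * n + t) := by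
  induction N with
  | zero => simp
  | succ N ih =>
    rw [Nat.mul_succ, sum_range_add, ih, sum_range_succ]

lemma sum_blocks (Q M : ℕ) (hQ : 0 < Q) (φ : ℕ → ℝ) (m : ℕ) :
    ∑ n ∈ range (Q ^ m * M), ∏ B ∈ range m, φ (n / Q ^ B % Q) =
      (∑ t ∈ range Q, φ t) ^ m * M := by
  induction m with
  | zero => simp
  | succ m ih =>
    have e : Q ^ (m + 1) * M = Q * (Q ^ m * M) := by ring
    rw [e, sum_range_mul']
    have h : ∀ n ∈ range (Q ^ m * M), ∑ t ∈ range Q,
        ∏ B ∈ range (m + 1), φ ((Q * n + t) / Q ^ B % Q) =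
        (∏ B ∈ range m, φ (n / Q ^ B % Q)) * ∑ t ∈ range Q, φ t := by
      intro n _
      rw [mul_sum]
      refine sum_congr rfl fun t ht => ?_
      have ht' := mem_range.1 ht
      rw [prod_range_succ']
      have h1 : (Q * n + t) / Q ^ 0 % Q = t := by
        rw [pow_zero, Nat.div_one, Nat.mul_add_mod, Nat.mod_eq_of_lt ht']
      rw [h1]
      congr 1
      refine prod_congr rfl fun B _ => ?_
      have h2 : (Q * n + t) / Q ^ (B + 1) = n / Q ^ B := by
        rw [pow_succ', ← Nat.div_div_eq_div_mul]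
        congr 1
        rw [Nat.mul_add_div hQ, Nat.div_eq_of_lt ht', add_zero]
      rw [h2]
    rw [sum_congr rfl h, ← sum_mul, ih]
    ring

theorem stUn : StUn := by
  intro b q r m K s hb hq hK
  classical
  set Q := b ^ q with hQdef
  have hQ2 : 2 ≤ Q := by
    calc 2 ≤ b := hb
      _ = b ^ 1 := (pow_one b).symm
      _ ≤ b ^ q := Nat.pow_le_pow_right (by omega) hq
  have hQ0 : (0 : ℝ) < Q := by exact_mod_cast (by omega : 0 < Q)
  set lam : ℝ := Q / 2 with hlam
  have hlam1 : 1 ≤ lam := by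
    rw [hlam, le_div_iff₀ (by norm_num)]
    have : (2 : ℝ) ≤ Q := by exact_mod_cast hQ2
    linarith
  set φ : ℕ → ℝ := fun t => if t = 0 ∨ t = Q - 1 then lam else 1 with hφ
  have hφsum : ∑ t ∈ range Q, φ t ≤ 2 * Q := by
    have h1 : ∑ t ∈ range Q, φ t ≤ ∑ t ∈ range Q, (1 + (if t = 0 then lam else 0) +
        (if t = Q - 1 then lam else 0)) := by
      refine sum_le_sum fun t _ => ?_
      simp only [hφ]
      have : 0 ≤ lam := by linarith
      split_ifs with h2 h3 h4 h5 h6 <;> first | linarith | (exfalso; tauto)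
    refine h1.trans ?_
    rw [sum_add_distrib, sum_add_distrib, sum_ite_eq', sum_ite_eq', if_pos (mem_range.2 (by omega)),
      if_pos (mem_range.2 (by omega))]
    simp only [sum_const, card_range, nsmul_eq_mul, mul_one]
    rw [hlam]
    linarith
  have hφ0 : 0 ≤ ∑ t ∈ range Q, φ t := sum_nonneg fun t _ => by
    simp only [hφ]; split_ifs <;> linarith
  -- the exponential moment
  have hmom : ∑ n ∈ range (b ^ K), ∏ B ∈ range m, φ (blk b q r B n) ≤ 2 ^ m * (b : ℝ) ^ K := by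
    obtain ⟨L, rfl⟩ : ∃ L, K = r + m * q + L := ⟨K - (r + m * q), by omega⟩
    have e : b ^ (r + m * q + L) = b ^ r * (Q ^ m * b ^ L) := by
      rw [hQdef, pow_add, pow_add, ← pow_mul, mul_comm q m, mul_assoc]
    rw [e, sum_range_mul']
    have h1 : ∀ n ∈ range (Q ^ m * b ^ L), ∑ t ∈ range (b ^ r),
        ∏ B ∈ range m, φ (blk b q r B (b ^ r * n + t)) =
        (b : ℝ) ^ r * ∏ B ∈ range m, φ (n / Q ^ B % Q) := by
      intro n _
      have h2 : ∀ t ∈ range (b ^ r), ∏ B ∈ range m, φ (blk b q r B (b ^ r * n + t)) =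
          ∏ B ∈ range m, φ (n / Q ^ B % Q) := by
        intro t ht
        refine prod_congr rfl fun B _ => ?_
        have h3 : (b ^ r * n + t) / b ^ (r + B * q) = n / Q ^ B := by
          rw [pow_add, ← Nat.div_div_eq_div_mul, Nat.mul_add_div (by positivity),
            Nat.div_eq_of_lt (mem_range.1 ht), add_zero, hQdef, ← pow_mul, mul_comm q B]
        unfold blk
        rw [h3]
      rw [sum_congr rfl h2, sum_const, card_range, nsmul_eq_mul]
      push_cast
      ring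
    rw [sum_congr rfl h1, ← mul_sum, sum_blocks Q (b ^ L) (by omega) φ m]
    have h4 : (∑ t ∈ range Q, φ t) ^ m ≤ (2 * (Q : ℝ)) ^ m := pow_le_pow_left₀ hφ0 hφsum m
    have h5 : (b : ℝ) ^ (r + m * q + L) = (b : ℝ) ^ r * ((Q : ℝ) ^ m * (b : ℝ) ^ L) := by
      exact_mod_cast e
    rw [h5]
    push_cast
    calc (b : ℝ) ^ r * ((∑ t ∈ range Q, φ t) ^ m * (b : ℝ) ^ L) ≤
          (b : ℝ) ^ r * ((2 * (Q : ℝ)) ^ m * (b : ℝ) ^ L) := by gcongr
      _ = _ := by rw [mul_pow]; ring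
  have hpow : ∀ n, ∏ B ∈ range m, φ (blk b q r B n) =
      lam ^ #{B ∈ range m | blk b q r B n = 0 ∨ blk b q r B n = Q - 1} := by
    intro n
    simp only [hφ]
    rw [prod_ite, prod_const, prod_const_one, mul_one]
  have hlamne : lam ≠ 0 := by linarith
  set A := {n ∈ range (b ^ K) | s ≤ #{B ∈ range m | blk b q r B n = 0 ∨
      blk b q r B n = Q - 1}} with hA
  have hmark : (#A : ℝ) * lam ^ s ≤ 2 ^ m * (b : ℝ) ^ K := by
    refine le_trans ?_ hmom
    have h1 : (#A : ℝ) * lam ^ s = ∑ n ∈ A, lam ^ s := by rw [sum_const, nsmul_eq_mul]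
    rw [h1]
    calc ∑ n ∈ A, lam ^ s ≤ ∑ n ∈ A, ∏ B ∈ range m, φ (blk b q r B n) := by
          refine sum_le_sum fun n hn => ?_
          rw [hpow n]
          exact pow_le_pow_right₀ hlam1 (mem_filter.1 hn).2
      _ ≤ _ := by
          refine sum_le_sum_of_subset_of_nonneg (filter_subset _ _) fun n _ _ => ?_
          rw [hpow n]
          positivity
  have h2 : (2 / (b : ℝ) ^ q) ^ s = (lam ^ s)⁻¹ := by
    rw [← inv_pow, hlam, hQdef]
    congr 1
    rw [inv_div]
    push_cast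
    rfl
  rw [h2]
  have hlp : 0 < lam ^ s := by positivity
  calc (#A : ℝ) = (#A : ℝ) * lam ^ s * (lam ^ s)⁻¹ := by field_simp
    _ ≤ 2 ^ m * (b : ℝ) ^ K * (lam ^ s)⁻¹ := mul_le_mul_of_nonneg_right hmark (by positivity)
    _ = _ := by ring

end Pool.Agent.Helper18.SC.DP
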